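import Pool.Agent.H18.Vrc3

set_option autoImplicit false

namespace Pool.Agent.Results.MP_61a31f_al.Amalgam

universe u

/-- `H` is a virtual retract of `G`: a retract of a finite index subgroup `K` containing it. -/
def IsVirtualRetract {G : Type u} [Group G] (H : Subgroup G) : Prop :=
  ∃ (K : Subgroup G) (hK : H ≤ K), K.FiniteIndex ∧
    ∃ r : K →* H, ∀ h : H, r (Subgroup.inclusion hK h) = h

/-- property (VRC): every cyclic subgroup is a virtual retract. -/
def VRC (G : Type u) [Group G] : Prop := ∀ g : G, IsVirtualRetract (Subgroup.zpowers g)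

/-- virtually cyclic: some cyclic subgroup has finite index. -/
def VirtuallyCyclic (G : Type u) [Group G] : Prop := ∃ g : G, (Subgroup.zpowers g).FiniteIndex

/-- the amalgamated free product of `P` and `Q` identifying `R ≤ P` with `S ≤ Q` along `e`:
the free product modulo the normal closure of the elements `r * (e r)⁻¹`. -/
abbrev AmalgProd {P Q : Type u} [Group P] [Group Q] (R : Subgroup P) (S : Subgroup Q)
    (e : R ≃* S) : Type u :=
  Monoid.Coprod P Q ⧸ Subgroup.normalClosure (Set.range fun r : R =>
    (Monoid.Coprod.inl (r : P) : Monoid.Coprod P Q) * (Monoid.Coprod.inr (e r : Q))⁻¹)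

theorem result (P Q : Type u) [Group P] [Group Q] (hP : VRC P) (hQ : VRC Q)
    (R : Subgroup P) (S : Subgroup Q) (e : R ≃* S) (hR : VirtuallyCyclic R) :
    VRC (AmalgProd R S e) := by
  obtain ⟨ρ, hρ⟩ := hR
  exact H18.Vrc.main (φ := R.subtype) (ψ := S.subtype.comp e.toMonoidHom) hP hQ
    Subtype.val_injective (Subtype.val_injective.comp e.injective) ρ

end Pool.Agent.Results.MP_61a31f_al.Amalgam
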